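import Pool.Agent.J4.H75.CK.Main

/-!
# Q1: the Clarkson-type inequality for `n`-tuples, `2 ≤ p < ∞`

For all operators `A_0, …, A_{n-1}` of Schatten class `S_p` and `2 ≤ p < ∞`, `1/p + 1/q = 1`,
`n (∑ ‖A_j‖_p^p)^{q/p} ≤ ‖∑ A_j‖_p^q + ∑_{j<k} ‖A_j - A_k‖_p^q`.
-/

set_option autoImplicit false
open Pool.Agent.Helper526.Sch

namespace Pool.Agent.Results.MP_5deb6a_an.TupleLower

universe u v

theorem result {H : Type u} [NormedAddCommGroup H] [InnerProductSpace ℂ H] [CompleteSpace H]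
    {ι : Type v} (b : HilbertBasis ι ℂ H) (n : ℕ) (_hn : 2 ≤ n) (p q : ℝ) (hp : 2 ≤ p)
    (hpq : 1 / p + 1 / q = 1) (A : Fin n → H →L[ℂ] H) (hA : ∀ j, IsSchatten b p (A j)) :
    (n : ℝ) * (∑ j, schattenNorm b p (A j) ^ p) ^ (q / p) ≤
      schattenNorm b p (∑ j, A j) ^ q +
        ∑ x ∈ Finset.univ.filter (fun x : Fin n × Fin n => x.1 < x.2),
          schattenNorm b p (A x.1 - A x.2) ^ q := by
  rw [← Pool.Agent.J4.H75.CK.sum_TT]
  exact Pool.Agent.J4.H75.CK.lower_full (Pool.Agent.J4.H75.CK.TT n) (Nat.cast_nonneg n)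
    (Pool.Agent.J4.H75.CK.TT_abs n) (Pool.Agent.J4.H75.CK.TT_orth n) b hp hpq A hA

end Pool.Agent.Results.MP_5deb6a_an.TupleLower
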