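import Pool.Agent.J4.H75.CK.Neg

/-!
# Q2: the reverse Clarkson-type inequality for `n`-tuples

For all operators `A_0, …, A_{n-1}` of Schatten class `S_p` and `1 < p ≤ 2`, `1/p + 1/q = 1`,
`‖∑ A_j‖_p^q + ∑_{j<k} ‖A_j - A_k‖_p^q ≤ n (∑ ‖A_j‖_p^p)^{q/p}`.
For `0 < p < 1` (where `q < 0`) it fails for every `n ≥ 2` on every nonzero space, with all the
norms that occur nonzero.
-/

set_option autoImplicit false
open Pool.Agent.Helper526.Sch

namespace Pool.Agent.Results.MP_5deb6a_an.TupleUpper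

universe u v

theorem result {H : Type u} [NormedAddCommGroup H] [InnerProductSpace ℂ H] [CompleteSpace H]
    {ι : Type v} (b : HilbertBasis ι ℂ H) (n : ℕ) (hn : 2 ≤ n) :
    (∀ p q : ℝ, 1 < p → p ≤ 2 → 1 / p + 1 / q = 1 → ∀ A : Fin n → H →L[ℂ] H,
      (∀ j, IsSchatten b p (A j)) →
      schattenNorm b p (∑ j, A j) ^ q +
        ∑ x ∈ Finset.univ.filter (fun x : Fin n × Fin n => x.1 < x.2),
          schattenNorm b p (A x.1 - A x.2) ^ q ≤
      (n : ℝ) * (∑ j, schattenNorm b p (A j) ^ p) ^ (q / p)) ∧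
    (Nontrivial H → ∀ p q : ℝ, 0 < p → p < 1 → 1 / p + 1 / q = 1 →
      ∃ A : Fin n → H →L[ℂ] H, (∀ j, IsSchatten b p (A j)) ∧
      (∀ j, 0 < schattenNorm b p (A j)) ∧ 0 < schattenNorm b p (∑ j, A j) ∧
      (∀ j k, j < k → 0 < schattenNorm b p (A j - A k)) ∧
      (n : ℝ) * (∑ j, schattenNorm b p (A j) ^ p) ^ (q / p) <
        schattenNorm b p (∑ j, A j) ^ q +
          ∑ x ∈ Finset.univ.filter (fun x : Fin n × Fin n => x.1 < x.2),
            schattenNorm b p (A x.1 - A x.2) ^ q) := by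
  refine ⟨fun p q hp1 hp2 hpq A hA => ?_, fun hH p q hp0 hp1 hpq => ?_⟩
  · rw [← Pool.Agent.J4.H75.CK.sum_TT]
    exact Pool.Agent.J4.H75.CK.upper_full (Pool.Agent.J4.H75.CK.TT n) (Nat.cast_nonneg n)
      (Pool.Agent.J4.H75.CK.TT_abs n) (Pool.Agent.J4.H75.CK.TT_orth n) b hp1 hp2 hpq A hA
  · exact Pool.Agent.J4.H75.CK.neg_part b n hn hp0 hp1 hpq

end Pool.Agent.Results.MP_5deb6a_an.TupleUpper
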